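import Pool.Agent.FLX.Stmts
import Pool.Agent.Helper59_Vir.Two
import Pool.Agent.Helper82_Vir.TwoCrit

/-!
# An open set of functions in `C^{1,1}` which are not Paneitz curvatures
-/

set_option autoImplicit false

open scoped InnerProductSpace Topology ContDiff Manifold
open MeasureTheory Filter Set

noncomputable section

namespace Pool.Agent.FLX.H88

open Pool.Agent.Helper42_Paneitz Pool.Agent.Helper82_Vir Pool.Agent.Helper59_Vir

/-- the conformal field with zeros `P`, `S`, which flows from `S` to `P` -/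
def XX (P S : E5) (x : S4) : E5 := cf (P - S) (An S P) x

theorem XX_eq (P S : E5) (x : S4) : XX P S x =
    P - S - (⟪P, (x : E5)⟫_ℝ - ⟪S, (x : E5)⟫_ℝ) • (x : E5) +
      (⟪P, (x : E5)⟫_ℝ • S - ⟪S, (x : E5)⟫_ℝ • P) := by
  unfold XX cf
  rw [An_apply, inner_sub_left]

theorem inner_P_XX (P S x : S4) : ⟪(P : E5), XX P S x⟫_ℝ =
    (1 - ⟪(P : E5), (x : E5)⟫_ℝ) *
      (1 + ⟪(P : E5), (x : E5)⟫_ℝ - ⟪(S : E5), (x : E5)⟫_ℝ - ⟪(P : E5), (S : E5)⟫_ℝ) := by
  rw [XX_eq]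
  simp only [inner_add_right, inner_sub_right, inner_smul_right, real_inner_self_eq_norm_sq,
    S4_norm]
  ring

theorem inner_S_XX (P S x : S4) : ⟪(S : E5), XX P S x⟫_ℝ =
    -((1 - ⟪(S : E5), (x : E5)⟫_ℝ) *
      (1 - ⟪(P : E5), (x : E5)⟫_ℝ + ⟪(S : E5), (x : E5)⟫_ℝ - ⟪(P : E5), (S : E5)⟫_ℝ)) := by
  rw [XX_eq]
  have h := real_inner_comm (P : E5) (S : E5)
  simp only [inner_add_right, inner_sub_right, inner_smul_right, real_inner_self_eq_norm_sq,
    S4_norm]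
  rw [← h]
  ring

theorem inner_x_XX (P S : E5) (x : S4) : ⟪(x : E5), XX P S x⟫_ℝ = 0 :=
  cf_tangent _ (An_skew _ _) x

theorem norm_XX (P S x : S4) : ‖XX P S x‖ ^ 2 =
    2 * (1 - ⟪(S : E5), (x : E5)⟫_ℝ) * (1 - ⟪(P : E5), (x : E5)⟫_ℝ) *
      (1 - ⟪(P : E5), (S : E5)⟫_ℝ) := by
  rw [← real_inner_self_eq_norm_sq]
  have h : ∀ w : E5, w = XX P S x → ⟪w, XX P S x⟫_ℝ = ⟪XX P S x, XX P S x⟫_ℝ := by
    intro w hw; rw [hw]
  rw [← h _ (XX_eq (P : E5) S x).symm]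
  simp only [inner_add_left, inner_sub_left, real_inner_smul_left]
  rw [inner_x_XX, inner_P_XX, inner_S_XX]
  ring

theorem neg : NegStmt := by
  refine ⟨1 / 100, by norm_num, fun Q hQ hHC => ?_⟩
  have hQc := continuous_of_sm hQ
  obtain ⟨P, -, hP⟩ := (isCompact_univ (X := S4)).exists_isMaxOn ⟨pt 0, trivial⟩ hQc.continuousOn
  obtain ⟨S, -, hS⟩ := (isCompact_univ (X := S4)).exists_isMinOn ⟨pt 0, trivial⟩ hQc.continuousOn
  have hmax : ∀ y, Q y ≤ Q P := fun y => hP (mem_univ y)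
  have hmin : ∀ y, Q S ≤ Q y := fun y => hS (mem_univ y)
  have hdP := dd_eq_zero_of_max hQ hmax
  have hdS := dd_eq_zero_of_min hQ hmin
  -- the difference
  have hlin : Sm fun x : S4 => 2 + (x : E5) 4 := (sm_const 2).add (sm_coord 4)
  have hdq : ∀ (x : S4) (v : E5), dd (fun x : S4 => Q x - (2 + (x : E5) 4)) x v =
      dd Q x v - (v 4 - (x : E5) 4 * ⟪(x : E5), v⟫_ℝ) := by
    intro x v
    rw [dd_fun_sub hQ hlin, dd_fun_add (sm_const 2) (sm_coord 4), dd_const, dd_coord]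
    ring
  have hq0 : ∀ x : S4, |Q x - (2 + (x : E5) 4)| ≤ 1 / 100 := fun x => (hHC x x 0).1
  have hq1 : ∀ (x y : S4) (v : E5), |dd Q x v - (v 4 - (x : E5) 4 * ⟪(x : E5), v⟫_ℝ) -
      (dd Q y v - (v 4 - (y : E5) 4 * ⟪(y : E5), v⟫_ℝ))| ≤ 1 / 100 * (‖v‖ * dist x y) := by
    intro x y v
    have := (hHC x y v).2.2
    rw [hdq, hdq, Real.rpow_one] at this
    linarith
  have hcoord : ∀ x : S4, |(x : E5) 4| ≤ 1 := by
    intro x
    have h := abs_real_inner_le_norm (ee 4) (x : E5)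
    rw [norm_ee, S4_norm, inner_ee'] at h
    linarith
  have hpos : ∀ x : S4, 0 < Q x := by
    intro x
    have h1 := abs_le.1 (hq0 x)
    have h2 := abs_le.1 (hcoord x)
    linarith [h1.1, h2.1]
  -- the maximum and the minimum are near the poles
  have hpt : ((pt 4 : S4) : E5) 4 = 1 := by
    show (ee 4) 4 = (1 : ℝ)
    rw [ee_apply, if_pos rfl]
  obtain ⟨N', hN'⟩ : ∃ N' : S4, (N' : E5) 4 = -1 := by
    refine ⟨⟨-ee 4, by rw [mem_sphere_zero_iff_norm, norm_neg]; exact norm_ee 4⟩, ?_⟩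
    show (-ee 4) 4 = (-1 : ℝ)
    have : (-ee 4 : E5) 4 = -((ee 4) 4) := rfl
    rw [this, ee_apply, if_pos rfl]
  have hP4 : 98 / 100 ≤ (P : E5) 4 := by
    have h1 := hmax (pt 4)
    have h2 := abs_le.1 (hq0 (pt 4))
    have h3 := abs_le.1 (hq0 P)
    rw [hpt] at h2
    linarith [h2.1, h3.2]
  have hS4 : (S : E5) 4 ≤ -(98 / 100) := by
    have h1 := hmin N'
    have h2 := abs_le.1 (hq0 N')
    have h3 := abs_le.1 (hq0 S)
    rw [hN'] at h2
    linarith [h2.2, h3.1]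
  set c : ℝ := ⟪(P : E5), (S : E5)⟫_ℝ with hc
  have hc1 : c ≤ -(92 / 100) := by
    have h1 : ‖(P : E5) - ee 4‖ ^ 2 = 2 - 2 * (P : E5) 4 := by
      rw [norm_sub_sq_real, S4_norm, norm_ee, inner_ee]; ring
    have h2 : ‖(S : E5) + ee 4‖ ^ 2 = 2 + 2 * (S : E5) 4 := by
      rw [norm_add_sq_real, S4_norm, norm_ee, inner_ee]; ring
    have h3 : ‖(P : E5) + (S : E5)‖ ^ 2 = 2 + 2 * c := by
      rw [norm_add_sq_real, S4_norm, S4_norm]; ring
    have h4 : (P : E5) + (S : E5) = ((P : E5) - ee 4) + ((S : E5) + ee 4) := by abel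
    have h5 := norm_add_le ((P : E5) - ee 4) ((S : E5) + ee 4)
    rw [← h4] at h5
    have h6 : ‖(P : E5) + (S : E5)‖ ^ 2 ≤
        (‖(P : E5) - ee 4‖ + ‖(S : E5) + ee 4‖) ^ 2 :=
      pow_le_pow_left₀ (norm_nonneg _) h5 2
    nlinarith [sq_nonneg (‖(P : E5) - ee 4‖ - ‖(S : E5) + ee 4‖)]
  have hcm1 : -1 ≤ c := neg_one_le_inner P S
  -- the derivative along the field
  have key : ∀ x : S4,
      (⟪(S : E5), (x : E5)⟫_ℝ ≤ ⟪(P : E5), (x : E5)⟫_ℝ → (1 - ⟪(P : E5), (x : E5)⟫_ℝ) *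
        (98 / 100 * (1 + ⟪(P : E5), (x : E5)⟫_ℝ - ⟪(S : E5), (x : E5)⟫_ℝ - c) - 4 / 100) ≤
        dd Q x (XX P S x)) ∧
      (⟪(P : E5), (x : E5)⟫_ℝ ≤ ⟪(S : E5), (x : E5)⟫_ℝ → (1 - ⟪(S : E5), (x : E5)⟫_ℝ) *
        (98 / 100 * (1 - ⟪(P : E5), (x : E5)⟫_ℝ + ⟪(S : E5), (x : E5)⟫_ℝ - c) - 4 / 100) ≤
        dd Q x (XX P S x)) := by
    intro x
    set t : ℝ := ⟪(P : E5), (x : E5)⟫_ℝ with ht
    set r : ℝ := ⟪(S : E5), (x : E5)⟫_ℝ with hr
    have ht1 : t ≤ 1 := inner_le_one P x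
    have ht2 : -1 ≤ t := neg_one_le_inner P x
    have hr1 : r ≤ 1 := inner_le_one S x
    have hr2 : -1 ≤ r := neg_one_le_inner S x
    have hX2 := norm_XX P S x
    have hXt := inner_x_XX (P : E5) S x
    have hXP := inner_P_XX P S x
    have hXS := inner_S_XX P S x
    have hdP2 : dist x P ^ 2 = 2 * (1 - t) := dist_sq P x
    have hdS2 : dist x S ^ 2 = 2 * (1 - r) := dist_sq S x
    have b1 : ‖XX P S x‖ * dist x P ≤ 4 * (1 - t) := by
      have h1 : (‖XX P S x‖ * dist x P) ^ 2 ≤ (4 * (1 - t)) ^ 2 := by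
        rw [mul_pow, hX2, hdP2]
        have h2 : 0 ≤ (1 - t) ^ 2 * (4 - (1 - r) * (1 - c)) := by
          apply mul_nonneg (sq_nonneg _)
          nlinarith
        nlinarith
      exact (sq_le_sq₀ (by positivity) (by linarith)).1 h1
    have b2 : ‖XX P S x‖ * dist x S ≤ 4 * (1 - r) := by
      have h1 : (‖XX P S x‖ * dist x S) ^ 2 ≤ (4 * (1 - r)) ^ 2 := by
        rw [mul_pow, hX2, hdS2]
        have h2 : 0 ≤ (1 - r) ^ 2 * (4 - (1 - t) * (1 - c)) := by
          apply mul_nonneg (sq_nonneg _)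
          nlinarith
        nlinarith
      exact (sq_le_sq₀ (by positivity) (by linarith)).1 h1
    constructor
    · intro hrt
      have hA : 0 ≤ (1 - t) * (1 + t - r - c) := mul_nonneg (by linarith) (by linarith)
      have h1 := hq1 x P (XX P S x)
      rw [hdP, hXt, hXP] at h1
      have h2 := (abs_le.1 h1).1
      have h3 : 98 / 100 * ((1 - t) * (1 + t - r - c)) ≤
          (P : E5) 4 * ((1 - t) * (1 + t - r - c)) := mul_le_mul_of_nonneg_right hP4 hA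
      nlinarith
    · intro hrt
      have hB : 0 ≤ (1 - r) * (1 - t + r - c) := mul_nonneg (by linarith) (by linarith)
      have h1 := hq1 x S (XX P S x)
      rw [hdS, hXt, hXS] at h1
      have h2 := (abs_le.1 h1).1
      have h3 : 98 / 100 * ((1 - r) * (1 - t + r - c)) ≤
          -(S : E5) 4 * ((1 - r) * (1 - t + r - c)) :=
        mul_le_mul_of_nonneg_right (by linarith) hB
      nlinarith
  have key2 : ∀ x : S4, min (1 - ⟪(P : E5), (x : E5)⟫_ℝ) (1 - ⟪(S : E5), (x : E5)⟫_ℝ) ≤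
      dd Q x (XX P S x) := by
    intro x
    obtain ⟨k1, k2⟩ := key x
    have ht1 : ⟪(P : E5), (x : E5)⟫_ℝ ≤ 1 := inner_le_one P x
    have hr1 : ⟪(S : E5), (x : E5)⟫_ℝ ≤ 1 := inner_le_one S x
    rcases le_total ⟪(S : E5), (x : E5)⟫_ℝ ⟪(P : E5), (x : E5)⟫_ℝ with h | h
    · refine (min_le_left _ _).trans (le_trans ?_ (k1 h))
      nlinarith
    · refine (min_le_right _ _).trans (le_trans ?_ (k2 h))
      nlinarith
  refine two_field hQ ((P : E5) - S) ((P : E5) - S) (A := An S P) (B := An S P) (An_skew _ _)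
    (An_skew _ _) (fun x _ => ?_) (fun x hx => absurd (hpos x) (not_lt.2 hx.le))
    (fun x y _ hy => absurd (hpos y) (not_lt.2 hy.le)) (Or.inl ⟨pt 0, hpos _, ?_⟩)
  · refine le_trans (le_min ?_ ?_) (key2 x)
    · linarith [inner_le_one P x]
    · linarith [inner_le_one S x]
  · refine lt_of_lt_of_le (lt_min ?_ ?_) (key2 (pt 0))
    · have h0 : ((pt 0 : S4) : E5) 4 = 0 := by
        show (ee 0) 4 = (0 : ℝ)
        rw [ee_apply, if_neg (by decide)]
      have h1 : P ≠ pt 0 := by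
        intro h
        rw [h, h0] at hP4
        norm_num at hP4
      have h2 : 0 < dist (pt 0) P ^ 2 := by
        have := dist_pos.2 (Ne.symm h1)
        positivity
      rw [dist_sq P (pt 0)] at h2
      linarith
    · have h0 : ((pt 0 : S4) : E5) 4 = 0 := by
        show (ee 0) 4 = (0 : ℝ)
        rw [ee_apply, if_neg (by decide)]
      have h1 : S ≠ pt 0 := by
        intro h
        rw [h, h0] at hS4
        norm_num at hS4
      have h2 : 0 < dist (pt 0) S ^ 2 := by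
        have := dist_pos.2 (Ne.symm h1)
        positivity
      rw [dist_sq S (pt 0)] at h2
      linarith

end Pool.Agent.FLX.H88
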