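import Pool.Agent.Helper88_FLX.Slice

/-!
# The operator `Aop` is a contraction in the sup norm
-/

set_option autoImplicit false

open scoped InnerProductSpace Topology ContDiff Manifold
open MeasureTheory Filter Set

noncomputable section

namespace Pool.Agent.FLX.H88

open Pool.Agent.Helper42_Paneitz Pool.Agent.Helper82_Vir

/-- `t log t` -/
def tl (t : ℝ) : ℝ := t * Real.log t

theorem continuous_tl : Continuous tl := Real.continuous_mul_log

theorem hasDerivAt_tl {t : ℝ} (ht : t ≠ 0) : HasDerivAt tl (Real.log t + 1) t :=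
  Real.hasDerivAt_mul_log ht

def F1 (t : ℝ) : ℝ :=
  tl t ^ 2 - t * tl t + t ^ 2 / 2 - (t * tl t ^ 2 / 3 - 2 * t ^ 2 * tl t / 9 + 2 * t ^ 3 / 27)

def F2 (t : ℝ) : ℝ := t * tl t - t ^ 2 / 2 - t ^ 2 * tl t / 3 + t ^ 3 / 9

def F3 (t : ℝ) : ℝ :=
  t * tl t - t ^ 2 / 2 - t ^ 2 * tl t + t ^ 3 / 3 + t ^ 3 * tl t / 4 - t ^ 4 / 16

theorem continuous_F1 : Continuous F1 := by
  have := continuous_tl
  unfold F1; fun_prop

theorem continuous_F2 : Continuous F2 := by
  have := continuous_tl
  unfold F2; fun_prop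

theorem continuous_F3 : Continuous F3 := by
  have := continuous_tl
  unfold F3; fun_prop

theorem deriv_F1 {t : ℝ} (ht : t ≠ 0) : HasDerivAt F1 (t * (2 - t) * Real.log t ^ 2) t := by
  have hm := hasDerivAt_tl ht
  have hi := hasDerivAt_id' t
  have h := (((hm.fun_pow 2).fun_sub (hi.fun_mul hm)).fun_add ((hi.fun_pow 2).div_const 2)).fun_sub
    ((((hi.fun_mul (hm.fun_pow 2)).div_const 3).fun_sub
      ((((hi.fun_pow 2).const_mul 2).fun_mul hm).div_const 9)).fun_add
      (((hi.fun_pow 3).const_mul 2).div_const 27))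
  refine h.congr_deriv ?_
  unfold tl
  simp only [Nat.cast_ofNat, Nat.add_one_sub_one, pow_one]
  ring

theorem deriv_F2 {t : ℝ} (ht : t ≠ 0) : HasDerivAt F2 (t * (2 - t) * Real.log t) t := by
  have hm := hasDerivAt_tl ht
  have hi := hasDerivAt_id' t
  have h := (((hi.fun_mul hm).fun_sub ((hi.fun_pow 2).div_const 2)).fun_sub
    (((hi.fun_pow 2).fun_mul hm).div_const 3)).fun_add ((hi.fun_pow 3).div_const 9)
  refine h.congr_deriv ?_
  unfold tl
  simp only [Nat.cast_ofNat, Nat.add_one_sub_one, pow_one]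
  ring

theorem deriv_F3 {t : ℝ} (ht : t ≠ 0) :
    HasDerivAt F3 (t * (2 - t) * (1 - t) * Real.log t) t := by
  have hm := hasDerivAt_tl ht
  have hi := hasDerivAt_id' t
  have h := (((((hi.fun_mul hm).fun_sub ((hi.fun_pow 2).div_const 2)).fun_sub
    ((hi.fun_pow 2).fun_mul hm)).fun_add ((hi.fun_pow 3).div_const 3)).fun_add
    (((hi.fun_pow 3).fun_mul hm).div_const 4)).fun_sub ((hi.fun_pow 4).div_const 16)
  refine h.congr_deriv ?_
  unfold tl
  simp only [Nat.cast_ofNat, Nat.add_one_sub_one, pow_one]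
  ring

theorem cont2 : Continuous fun t : ℝ => t * (2 - t) * Real.log t := by
  have h := continuous_tl
  have e : (fun t : ℝ => t * (2 - t) * Real.log t) = fun t => (2 - t) * tl t := by
    funext t; unfold tl; ring
  rw [e]; fun_prop

theorem cont3 : Continuous fun t : ℝ => t * (2 - t) * (1 - t) * Real.log t := by
  have h := continuous_tl
  have e : (fun t : ℝ => t * (2 - t) * (1 - t) * Real.log t) =
      fun t => (2 - t) * (1 - t) * tl t := by
    funext t; unfold tl; ring
  rw [e]; fun_prop

theorem ii1 : IntervalIntegrable (fun t : ℝ => t * (2 - t) * Real.log t ^ 2) volume 0 2 := by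
  have h := intervalIntegral.integrableOn_deriv_of_nonneg (a := 0) (b := 2)
    continuous_F1.continuousOn (fun t ht => deriv_F1 ht.1.ne') (fun t ht => by
      have h1 : 0 < t := ht.1
      have h2 : 0 < 2 - t := by linarith [ht.2]
      positivity)
  exact (intervalIntegrable_iff_integrableOn_Ioc_of_le (by norm_num)).2 h

theorem int1 : ∫ t in (0 : ℝ)..2, t * (2 - t) * Real.log t ^ 2 =
    4 / 3 * Real.log 2 ^ 2 - 20 / 9 * Real.log 2 + 38 / 27 := by
  rw [intervalIntegral.integral_eq_sub_of_hasDerivAt_of_le (by norm_num)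
    continuous_F1.continuousOn (fun t ht => deriv_F1 ht.1.ne') ii1]
  unfold F1 tl
  simp
  ring

theorem int2 : ∫ t in (0 : ℝ)..2, t * (2 - t) * Real.log t = 4 / 3 * Real.log 2 - 10 / 9 := by
  rw [intervalIntegral.integral_eq_sub_of_hasDerivAt_of_le (by norm_num)
    continuous_F2.continuousOn (fun t ht => deriv_F2 ht.1.ne') (cont2.intervalIntegrable _ _)]
  unfold F2 tl
  simp
  ring

theorem int3 : ∫ t in (0 : ℝ)..2, t * (2 - t) * (1 - t) * Real.log t = -(1 / 3) := by
  rw [intervalIntegral.integral_eq_sub_of_hasDerivAt_of_le (by norm_num)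
    continuous_F3.continuousOn (fun t ht => deriv_F3 ht.1.ne') (cont3.intervalIntegrable _ _)]
  unfold F3 tl
  simp
  ring

/-- `-log (1 - s)` -/
def lg (s : ℝ) : ℝ := -Real.log (1 - s)

theorem measurable_lg : Measurable lg :=
  (Real.measurable_log.comp (measurable_const.sub measurable_id)).neg

theorem shift (f : ℝ → ℝ) : ∫ s in (-1 : ℝ)..1, f (1 - s) = ∫ t in (0 : ℝ)..2, f t := by
  rw [intervalIntegral.integral_comp_sub_left f 1]
  norm_num

theorem shift_ii {f : ℝ → ℝ} (h : IntervalIntegrable f volume 0 2) :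
    IntervalIntegrable (fun s => f (1 - s)) volume (-1) 1 := by
  have := h.comp_sub_left 1
  norm_num at this
  exact this.symm

theorem sl1 : ∫ s in (-1 : ℝ)..1, lg s ^ 2 * dens s =
    msig * (Real.log 2 ^ 2 - 5 / 3 * Real.log 2 + 19 / 18) := by
  have e : ∀ s : ℝ, lg s ^ 2 * dens s =
      (fun t => (3 / 4) * msig * (t * (2 - t) * Real.log t ^ 2)) (1 - s) := by
    intro s; unfold lg dens; ring
  simp only [e]
  rw [shift fun t => (3 / 4) * msig * (t * (2 - t) * Real.log t ^ 2),
    intervalIntegral.integral_const_mul, int1]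
  ring

theorem sl2 : ∫ s in (-1 : ℝ)..1, lg s * dens s = msig * (5 / 6 - Real.log 2) := by
  have e : ∀ s : ℝ, lg s * dens s =
      (fun t => -((3 / 4) * msig) * (t * (2 - t) * Real.log t)) (1 - s) := by
    intro s; unfold lg dens; ring
  simp only [e]
  rw [shift fun t => -((3 / 4) * msig) * (t * (2 - t) * Real.log t),
    intervalIntegral.integral_const_mul, int2]
  ring

theorem sl3 : ∫ s in (-1 : ℝ)..1, (lg s * s) * dens s = msig / 4 := by
  have e : ∀ s : ℝ, (lg s * s) * dens s =
      (fun t => -((3 / 4) * msig) * (t * (2 - t) * (1 - t) * Real.log t)) (1 - s) := by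
    intro s; unfold lg dens; ring
  simp only [e]
  rw [shift fun t => -((3 / 4) * msig) * (t * (2 - t) * (1 - t) * Real.log t),
    intervalIntegral.integral_const_mul, int3]
  ring

theorem lgi1 : IntervalIntegrable (fun s => lg s ^ 2 * dens s) volume (-1) 1 := by
  have e : (fun s : ℝ => lg s ^ 2 * dens s) =
      fun s => (fun t => (3 / 4) * msig * (t * (2 - t) * Real.log t ^ 2)) (1 - s) := by
    funext s; unfold lg dens; ring
  rw [e]
  exact shift_ii (ii1.const_mul _)

theorem lgi2 : IntervalIntegrable (fun s => lg s * dens s) volume (-1) 1 := by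
  have e : (fun s : ℝ => lg s * dens s) =
      fun s => (fun t => -((3 / 4) * msig) * (t * (2 - t) * Real.log t)) (1 - s) := by
    funext s; unfold lg dens; ring
  rw [e]
  exact shift_ii ((cont2.intervalIntegrable _ _).const_mul _)

theorem lgi3 : IntervalIntegrable (fun s => (lg s * s) * dens s) volume (-1) 1 := by
  have e : (fun s : ℝ => (lg s * s) * dens s) =
      fun s => (fun t => -((3 / 4) * msig) * (t * (2 - t) * (1 - t) * Real.log t)) (1 - s) := by
    funext s; unfold lg dens; ring
  rw [e]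
  exact shift_ii ((cont3.intervalIntegrable _ _).const_mul _)

theorem isub {f g : S4 → ℝ} (hf : Integrable f sig) (hg : Integrable g sig) :
    Integrable (fun y => f y - g y) sig := hf.sub hg

theorem iadd {f g : S4 → ℝ} (hf : Integrable f sig) (hg : Integrable g sig) :
    Integrable (fun y => f y + g y) sig := hf.add hg

variable (x : S4)

theorem ell_eq (y : S4) : ell x y = lg ⟪(x : E5), (y : E5)⟫_ℝ := rfl

theorem integrable_ell : Integrable (fun y => ell x y) sig :=
  integrable_slice x lg measurable_lg lgi2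

theorem integrable_ell_sq : Integrable (fun y => ell x y ^ 2) sig :=
  integrable_slice x (fun s => lg s ^ 2) (measurable_lg.pow_const 2) lgi1

theorem integrable_ell_s : Integrable (fun y : S4 => ell x y * ⟪(x : E5), (y : E5)⟫_ℝ) sig :=
  integrable_slice x (fun s => lg s * s) (measurable_lg.mul measurable_id) lgi3

theorem integral_ell : ∫ y, ell x y ∂sig = msig * (5 / 6 - Real.log 2) := by
  have := integral_slice x lg measurable_lg
  rw [sl2] at this
  exact this

theorem integral_ell_sq : ∫ y, ell x y ^ 2 ∂sig =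
    msig * (Real.log 2 ^ 2 - 5 / 3 * Real.log 2 + 19 / 18) := by
  have := integral_slice x (fun s => lg s ^ 2) (measurable_lg.pow_const 2)
  rw [sl1] at this
  exact this

theorem integral_ell_s : ∫ y : S4, ell x y * ⟪(x : E5), (y : E5)⟫_ℝ ∂sig = msig / 4 := by
  have := integral_slice x (fun s => lg s * s) (measurable_lg.mul measurable_id)
  rw [sl3] at this
  exact this

/-- the kernel of `Aop`, up to the factor `4 / msig` -/
def kap (y : S4) : ℝ := ell x y - (5 / 6 - Real.log 2) - 5 / 4 * ⟪(x : E5), (y : E5)⟫_ℝ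

theorem cont_s : Continuous fun y : S4 => ⟪(x : E5), (y : E5)⟫_ℝ :=
  continuous_const.inner continuous_subtype_val

theorem integrable_kap : Integrable (kap x) sig :=
  ((integrable_ell x).sub (integrable_const _)).sub ((integrable_cont (cont_s x)).const_mul _)

theorem kap_sq (y : S4) : kap x y ^ 2 = ell x y ^ 2 - 2 * (5 / 6 - Real.log 2) * ell x y
    + (5 / 6 - Real.log 2) ^ 2 - 5 / 2 * (ell x y * ⟪(x : E5), (y : E5)⟫_ℝ)
    + 5 / 2 * (5 / 6 - Real.log 2) * ⟪(x : E5), (y : E5)⟫_ℝ
    + 25 / 16 * ⟪(x : E5), (y : E5)⟫_ℝ ^ 2 := by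
  unfold kap; ring

theorem integrable_kap_sq : Integrable (fun y => kap x y ^ 2) sig := by
  simp only [kap_sq]
  exact (((((integrable_ell_sq x).sub ((integrable_ell x).const_mul _)).add
    (integrable_const _)).sub ((integrable_ell_s x).const_mul _)).add
    ((integrable_cont (cont_s x)).const_mul _)).add
    ((integrable_cont ((cont_s x).pow 2)).const_mul _)

theorem integral_kap_sq : ∫ y, kap x y ^ 2 ∂sig = msig * (7 / 144) := by
  simp only [kap_sq]
  have i1 := integrable_ell_sq x
  have i2 := (integrable_ell x).const_mul (2 * (5 / 6 - Real.log 2))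
  have i3 : Integrable (fun _ : S4 => (5 / 6 - Real.log 2) ^ 2) sig := integrable_const _
  have i4 := (integrable_ell_s x).const_mul (5 / 2)
  have i5 := (integrable_cont (cont_s x)).const_mul (5 / 2 * (5 / 6 - Real.log 2))
  have i6 : Integrable (fun y : S4 => 25 / 16 * ⟪(x : E5), (y : E5)⟫_ℝ ^ 2) sig :=
    (integrable_cont ((cont_s x).pow 2)).const_mul (25 / 16)
  have k2 := isub i1 i2
  have k3 := iadd k2 i3
  have k4 := isub k3 i4
  have k5 := iadd k4 i5
  have e1 : ∫ y : S4, ⟪(x : E5), (y : E5)⟫_ℝ ∂sig = 0 := by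
    have := integral_mono x 1
    simp only [pow_one] at this
    rw [this]; norm_num [mom]
  have e2 : ∫ y : S4, ⟪(x : E5), (y : E5)⟫_ℝ ^ 2 ∂sig = msig / 5 := by
    have := integral_mono x 2
    rw [this]; norm_num [mom]; ring
  rw [integral_add k5 i6, integral_add k4 i5, integral_sub k3 i4, integral_add k2 i3,
    integral_sub i1 i2,
    integral_const_mul, integral_const_mul, integral_const_mul, integral_const_mul,
    integral_const_sig, integral_ell_sq, integral_ell, integral_ell_s, e1, e2]
  ring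

theorem aop_eq (h : S4 → ℝ) (hh : Continuous h) :
    Aop h x = 4 / msig * ∫ y, kap x y * h y ∂sig := by
  have hm := msig_pos
  obtain ⟨C, hC0, hC⟩ := exists_bound hh
  have hbd : ∀ᵐ y ∂sig, ‖h y‖ ≤ C := Eventually.of_forall fun y => by
    rw [Real.norm_eq_abs]; exact hC y
  have j1 : Integrable (fun y => ell x y * h y) sig :=
    (integrable_ell x).mul_bdd hh.aestronglyMeasurable hbd
  have j2 : Integrable (fun y : S4 => ⟪(x : E5), (y : E5)⟫_ℝ * h y) sig :=
    integrable_cont ((cont_s x).fun_mul hh)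
  have j3 := integrable_cont hh
  unfold Aop K
  have e1 : ∀ y, ell x y * (h y - avg h) = ell x y * h y - avg h * ell x y := by intro y; ring
  have e2 : ∀ y : S4, kap x y * h y = ell x y * h y - (5 / 6 - Real.log 2) * h y -
      5 / 4 * (⟪(x : E5), (y : E5)⟫_ℝ * h y) := by intro y; unfold kap; ring
  simp only [e1, e2]
  have k1 := isub j1 (j3.const_mul (5 / 6 - Real.log 2))
  rw [integral_sub j1 ((integrable_ell x).const_mul _), integral_const_mul, integral_ell,
    integral_sub k1 (j2.const_mul (5 / 4)), integral_sub j1 (j3.const_mul (5 / 6 - Real.log 2)),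
    integral_const_mul, integral_const_mul]
  unfold avg
  field_simp
  ring

theorem nrm : NrmStmt := by
  intro h B hh hB x
  have hm := msig_pos
  have hB0 : 0 ≤ B := (abs_nonneg _).trans (hB x)
  have hbd : ∀ᵐ y ∂sig, ‖h y‖ ≤ B := Eventually.of_forall fun y => by
    rw [Real.norm_eq_abs]; exact hB y
  have j1 : Integrable (fun y => kap x y * h y) sig :=
    (integrable_kap x).mul_bdd hh.aestronglyMeasurable hbd
  have h1 : |∫ y, kap x y * h y ∂sig| ≤ ∫ y, B * (25 / 11 * kap x y ^ 2 + 11 / 100) ∂sig := by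
    refine (abs_integral_le_integral_abs).trans ?_
    refine integral_mono_ae j1.abs ((((integrable_kap_sq x).const_mul _).add
      (integrable_const _)).const_mul _) (Eventually.of_forall fun y => ?_)
    show |kap x y * h y| ≤ B * (25 / 11 * kap x y ^ 2 + 11 / 100)
    rw [abs_mul, mul_comm]
    have h2 : |kap x y| ≤ 25 / 11 * kap x y ^ 2 + 11 / 100 := by
      have h3 := sq_nonneg (|kap x y| - 11 / 50)
      have h4 := sq_abs (kap x y)
      nlinarith
    exact mul_le_mul (hB y) h2 (abs_nonneg _) hB0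
  have h2 : ∫ y, B * (25 / 11 * kap x y ^ 2 + 11 / 100) ∂sig =
      B * (25 / 11 * (msig * (7 / 144)) + msig * (11 / 100)) := by
    rw [integral_const_mul, integral_add ((integrable_kap_sq x).const_mul _) (integrable_const _),
      integral_const_mul, integral_kap_sq, integral_const_sig]
  rw [h2] at h1
  rw [aop_eq x h hh, abs_mul, abs_of_pos (by positivity)]
  calc 4 / msig * |∫ y, kap x y * h y ∂sig|
      ≤ 4 / msig * (B * (25 / 11 * (msig * (7 / 144)) + msig * (11 / 100))) :=
        mul_le_mul_of_nonneg_left h1 (by positivity)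
    _ = B * (4 * (25 / 11 * (7 / 144) + 11 / 100)) := by field_simp
    _ ≤ 9 / 10 * B := by nlinarith

end Pool.Agent.FLX.H88
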