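import Pool.Agent.FLX.Stmts

/-!
# The distribution of `<x, y>` on the sphere
-/

set_option autoImplicit false

open scoped InnerProductSpace Topology ContDiff Manifold
open MeasureTheory Filter Set

noncomputable section

namespace Pool.Agent.FLX.H88

open Pool.Agent.Helper42_Paneitz Pool.Agent.Helper82_Vir

/-- the moments of the measure `(3/4) (1 - s²) ds` on `[-1, 1]` -/
def mom (k : ℕ) : ℝ := (3 / 4) * ((1 + (-1) ^ k) * (2 / ((k + 1) * (k + 3))))

theorem integral_lap (u : S4 → ℝ) (hu : Sm u) : ∫ y, sphLaplacian u y ∂sig = 0 := by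
  have h := integral_lap_symm hu (sm_const 1)
  simp only [one_mul, sphLaplacian_const, mul_zero, integral_zero] at h
  exact h

theorem mom_rec (k : ℕ) : mom (k + 2) * (k + 5) = mom k * (k + 1) := by
  unfold mom
  have h1 : ((k : ℝ) + 1) ≠ 0 := by positivity
  have h3 : ((k : ℝ) + 3) ≠ 0 := by positivity
  have h5 : ((k : ℝ) + 5) ≠ 0 := by positivity
  have e : ((-1 : ℝ)) ^ (k + 2) = (-1) ^ k := by rw [pow_add]; norm_num
  rw [e]
  push_cast
  have h3' : ((k : ℝ) + 2 + 1) ≠ 0 := by positivity
  have h5' : ((k : ℝ) + 2 + 3) ≠ 0 := by positivity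
  field_simp
  ring

theorem integral_mono (x : S4) (k : ℕ) :
    ∫ y : S4, ⟪(x : E5), (y : E5)⟫_ℝ ^ k ∂sig = msig * mom k := by
  have hI : ∀ k, Integrable (mono (x : E5) k) sig := fun k =>
    integrable_cont (continuous_of_sm (sm_mono _ k))
  have key : ∀ k : ℕ, (k * (k - 1) : ℝ) * ∫ y, mono (x : E5) (k - 2) y ∂sig =
      (k * (k + 3) : ℝ) * ∫ y, mono (x : E5) k y ∂sig := by
    intro k
    have h := integral_lap _ (sm_mono (x : E5) k)
    rw [(mono_facts (x : E5) k).2, S4_norm] at h
    rw [integral_add ((hI _).const_mul _) ((hI _).const_mul _), integral_const_mul,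
      integral_const_mul] at h
    nlinarith [h]
  have main : ∀ k : ℕ, ∫ y, mono (x : E5) k y ∂sig = msig * mom k := by
    intro k
    induction k using Nat.strong_induction_on with
    | _ k ih =>
      match k, ih with
      | 0, _ =>
        have : ∀ y : S4, mono (x : E5) 0 y = 1 := fun y => by simp [mono]
        simp only [this, integral_const_sig]
        norm_num [mom]
      | 1, _ =>
        have h := key 1
        norm_num at h
        rw [h]
        norm_num [mom]
      | k + 2, ih =>
        have h := key (k + 2)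
        have h2 := ih k (by omega)
        have e : k + 2 - 2 = k := by omega
        rw [e, h2] at h
        have h3 := mom_rec k
        push_cast at h
        have h4 : ((k : ℝ) + 2) ≠ 0 := by positivity
        have h5 : ((k : ℝ) + 5) ≠ 0 := by positivity
        have h6 : ((k : ℝ) + 2) * ((k : ℝ) + 5) *
            (∫ y, mono (x : E5) (k + 2) y ∂sig - msig * mom (k + 2)) = 0 := by
          linear_combination (-1 : ℝ) * h - ((k : ℝ) + 2) * msig * h3
        have h7 := (mul_eq_zero.1 h6).resolve_left (mul_ne_zero h4 h5)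
        linarith
  exact main k

/-- the density `(3/4) msig (1 - s²)` on `[-1, 1]` -/
def dens (s : ℝ) : ℝ := (3 / 4) * msig * (1 - s ^ 2)

theorem integral_pow_dens (k : ℕ) : ∫ s in (-1 : ℝ)..1, s ^ k * dens s = msig * mom k := by
  unfold dens mom
  have e : ∀ s : ℝ, s ^ k * ((3 / 4) * msig * (1 - s ^ 2)) =
      (3 / 4) * msig * (s ^ k - s ^ (k + 2)) := by intro s; ring
  simp only [e]
  rw [intervalIntegral.integral_const_mul, intervalIntegral.integral_sub
    (intervalIntegral.intervalIntegrable_pow k) (intervalIntegral.intervalIntegrable_pow (k + 2)),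
    integral_pow, integral_pow]
  have h1 : ((k : ℝ) + 1) ≠ 0 := by positivity
  have h3 : ((k : ℝ) + 3) ≠ 0 := by positivity
  have h3' : ((k : ℝ) + 2 + 1) ≠ 0 := by positivity
  push_cast
  rw [pow_succ, show k + 2 + 1 = k + 3 by rfl, pow_add (-1 : ℝ) k 3]
  field_simp
  ring

theorem dens_nonneg {s : ℝ} (hs : s ∈ Icc (-1 : ℝ) 1) : 0 ≤ dens s := by
  unfold dens
  have h := msig_pos
  have : s ^ 2 ≤ 1 := by nlinarith [hs.1, hs.2]
  have h2 : 0 ≤ 1 - s ^ 2 := by linarith
  positivity

theorem continuous_dens : Continuous dens := by unfold dens; fun_prop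

theorem integral_poly (x : S4) (p : Polynomial ℝ) :
    ∫ y : S4, p.eval ⟪(x : E5), (y : E5)⟫_ℝ ∂sig = ∫ s in (-1 : ℝ)..1, p.eval s * dens s := by
  have hin : Continuous fun y : S4 => ⟪(x : E5), (y : E5)⟫_ℝ :=
    continuous_const.inner continuous_subtype_val
  induction p using Polynomial.induction_on' with
  | add p q hp hq =>
    simp only [Polynomial.eval_add, add_mul]
    have h1 : Continuous fun y : S4 => p.eval ⟪(x : E5), (y : E5)⟫_ℝ := p.continuous.comp hin
    have h2 : Continuous fun y : S4 => q.eval ⟪(x : E5), (y : E5)⟫_ℝ := q.continuous.comp hin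
    rw [integral_add (integrable_cont h1) (integrable_cont h2), hp, hq,
      intervalIntegral.integral_add]
    · exact ((p.continuous).fun_mul continuous_dens).intervalIntegrable _ _
    · exact ((q.continuous).fun_mul continuous_dens).intervalIntegrable _ _
  | monomial n a =>
    simp only [Polynomial.eval_monomial, mul_assoc]
    rw [integral_const_mul, intervalIntegral.integral_const_mul, integral_mono, integral_pow_dens]

theorem mem_Icc_inner (x y : S4) : ⟪(x : E5), (y : E5)⟫_ℝ ∈ Icc (-1 : ℝ) 1 :=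
  ⟨neg_one_le_inner x y, inner_le_one x y⟩

theorem integral_cts (x : S4) (f : ℝ → ℝ) (hf : Continuous f) :
    ∫ y : S4, f ⟪(x : E5), (y : E5)⟫_ℝ ∂sig = ∫ s in (-1 : ℝ)..1, f s * dens s := by
  have hin : Continuous fun y : S4 => ⟪(x : E5), (y : E5)⟫_ℝ :=
    continuous_const.inner continuous_subtype_val
  have h : ∀ ε : ℝ, 0 < ε → |∫ y : S4, f ⟪(x : E5), (y : E5)⟫_ℝ ∂sig -
      ∫ s in (-1 : ℝ)..1, f s * dens s| ≤ ε * (2 * msig) := by
    intro ε hε
    obtain ⟨p, hp⟩ := exists_polynomial_near_of_continuousOn (-1) 1 f hf.continuousOn ε hε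
    have hd1 : ∫ s in (-1 : ℝ)..1, dens s = msig := by
      have := integral_pow_dens 0
      simp only [pow_zero, one_mul] at this
      rw [this]
      norm_num [mom]
    have e1 : |∫ y : S4, f ⟪(x : E5), (y : E5)⟫_ℝ ∂sig -
        ∫ y : S4, p.eval ⟪(x : E5), (y : E5)⟫_ℝ ∂sig| ≤ ε * msig := by
      have h1 : Continuous fun y : S4 => p.eval ⟪(x : E5), (y : E5)⟫_ℝ := p.continuous.comp hin
      have h2 : Continuous fun y : S4 => f ⟪(x : E5), (y : E5)⟫_ℝ := hf.comp hin
      rw [← integral_sub (integrable_cont h2) (integrable_cont h1)]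
      have := norm_integral_le_of_norm_le_const (μ := sig) (C := ε)
        (f := fun y : S4 => f ⟪(x : E5), (y : E5)⟫_ℝ - p.eval ⟪(x : E5), (y : E5)⟫_ℝ)
        (Eventually.of_forall fun y => by
          rw [Real.norm_eq_abs, abs_sub_comm]
          exact (hp _ (mem_Icc_inner x y)).le)
      rw [Real.norm_eq_abs] at this
      exact this
    have hpd := p.continuous.fun_mul continuous_dens
    have hfd := hf.fun_mul continuous_dens
    have e2 : |(∫ s in (-1 : ℝ)..1, p.eval s * dens s) - ∫ s in (-1 : ℝ)..1, f s * dens s| ≤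
        ε * msig := by
      rw [← intervalIntegral.integral_sub (hpd.intervalIntegrable _ _)
        (hfd.intervalIntegrable _ _), ← hd1,
        ← intervalIntegral.integral_const_mul]
      have h1 : |∫ s in (-1 : ℝ)..1, (p.eval s * dens s - f s * dens s)| ≤
          ∫ s in (-1 : ℝ)..1, |p.eval s * dens s - f s * dens s| :=
        intervalIntegral.abs_integral_le_integral_abs (by norm_num)
      refine h1.trans ?_
      apply intervalIntegral.integral_mono_on (by norm_num)
      · exact ((hpd.fun_sub hfd).abs).intervalIntegrable _ _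
      · exact (continuous_const.fun_mul continuous_dens).intervalIntegrable _ _
      · intro s hs
        rw [← sub_mul, abs_mul, abs_of_nonneg (dens_nonneg hs)]
        exact mul_le_mul_of_nonneg_right (hp s hs).le (dens_nonneg hs)
    rw [integral_poly] at e1
    have := abs_sub_le (∫ y : S4, f ⟪(x : E5), (y : E5)⟫_ℝ ∂sig)
      (∫ s in (-1 : ℝ)..1, p.eval s * dens s) (∫ s in (-1 : ℝ)..1, f s * dens s)
    linarith
  have hm := msig_pos
  by_contra hne
  have hpos : 0 < |∫ y : S4, f ⟪(x : E5), (y : E5)⟫_ℝ ∂sig - ∫ s in (-1 : ℝ)..1, f s * dens s| :=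
    abs_pos.2 (sub_ne_zero.2 hne)
  have h2 := h (|∫ y : S4, f ⟪(x : E5), (y : E5)⟫_ℝ ∂sig - ∫ s in (-1 : ℝ)..1, f s * dens s| /
    (4 * msig)) (by positivity)
  have e3 : |∫ y : S4, f ⟪(x : E5), (y : E5)⟫_ℝ ∂sig - ∫ s in (-1 : ℝ)..1, f s * dens s| /
    (4 * msig) * (2 * msig) = |∫ y : S4, f ⟪(x : E5), (y : E5)⟫_ℝ ∂sig -
      ∫ s in (-1 : ℝ)..1, f s * dens s| / 2 := by
    field_simp
    ring
  rw [e3] at h2
  linarith

/-- the measure `(3/4) msig (1 - s²) ds` on `(-1, 1]` -/
def mu : Measure ℝ := (volume.restrict (Ioc (-1 : ℝ) 1)).withDensity fun s => ENNReal.ofReal (dens s)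

theorem integral_mu (f : ℝ → ℝ) : ∫ s, f s ∂mu = ∫ s in (-1 : ℝ)..1, f s * dens s := by
  unfold mu
  rw [integral_withDensity_eq_integral_toReal_smul₀
    (continuous_dens.measurable.ennreal_ofReal.aemeasurable)
    (Eventually.of_forall fun s => ENNReal.ofReal_lt_top),
    intervalIntegral.integral_of_le (by norm_num)]
  apply setIntegral_congr_fun measurableSet_Ioc
  intro s hs
  show (ENNReal.ofReal (dens s)).toReal • f s = f s * dens s
  rw [ENNReal.toReal_ofReal (dens_nonneg ⟨hs.1.le, hs.2⟩), smul_eq_mul, mul_comm]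

instance : IsFiniteMeasure mu := by
  unfold mu
  refine isFiniteMeasure_withDensity_ofReal ?_
  exact (continuous_dens.integrableOn_Icc (a := -1) (b := 1)).mono_set Ioc_subset_Icc_self |>.2

/-- **Slice formula**: the distribution of `y ↦ <x, y>` -/
theorem map_inner (x : S4) : Measure.map (fun y : S4 => ⟪(x : E5), (y : E5)⟫_ℝ) sig = mu := by
  have hin : Continuous fun y : S4 => ⟪(x : E5), (y : E5)⟫_ℝ :=
    continuous_const.inner continuous_subtype_val
  have : IsFiniteMeasure (Measure.map (fun y : S4 => ⟪(x : E5), (y : E5)⟫_ℝ) sig) :=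
    Measure.isFiniteMeasure_map _ _
  refine ext_of_forall_integral_eq_of_IsFiniteMeasure fun f => ?_
  rw [integral_map hin.aemeasurable f.continuous.aestronglyMeasurable, integral_mu]
  exact integral_cts x f f.continuous

theorem integral_slice (x : S4) (f : ℝ → ℝ) (hf : Measurable f) :
    ∫ y : S4, f ⟪(x : E5), (y : E5)⟫_ℝ ∂sig = ∫ s in (-1 : ℝ)..1, f s * dens s := by
  have hin : Continuous fun y : S4 => ⟪(x : E5), (y : E5)⟫_ℝ :=
    continuous_const.inner continuous_subtype_val
  rw [← integral_mu, ← map_inner x, integral_map hin.aemeasurable hf.aestronglyMeasurable]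

theorem integrable_slice (x : S4) (f : ℝ → ℝ) (hf : Measurable f)
    (hi : IntervalIntegrable (fun s => f s * dens s) volume (-1) 1) :
    Integrable (fun y : S4 => f ⟪(x : E5), (y : E5)⟫_ℝ) sig := by
  have hin : Continuous fun y : S4 => ⟪(x : E5), (y : E5)⟫_ℝ :=
    continuous_const.inner continuous_subtype_val
  have h1 : Integrable f mu := by
    unfold mu
    rw [integrable_withDensity_iff_integrable_smul₀'
      (continuous_dens.measurable.ennreal_ofReal.aemeasurable)
      (Eventually.of_forall fun s => ENNReal.ofReal_lt_top)]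
    have h2 := (intervalIntegrable_iff_integrableOn_Ioc_of_le (by norm_num)).1 hi
    refine h2.congr_fun (fun s hs => ?_) measurableSet_Ioc
    show f s * dens s = (ENNReal.ofReal (dens s)).toReal • f s
    rw [ENNReal.toReal_ofReal (dens_nonneg ⟨hs.1.le, hs.2⟩), smul_eq_mul, mul_comm]
  rw [← map_inner x] at h1
  exact (integrable_map_measure hf.aestronglyMeasurable hin.aemeasurable).1 h1

end Pool.Agent.FLX.H88
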